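import Pool.Agent.Helper98.LogPoly.Sup.Super1
set_option autoImplicit false
namespace Pool.Agent.Helper98.LogPoly.SP
open Filter Topology

theorem profile {a t2 : ℝ} (ha : -1 < a) (h0 : 0 < t2) (ht2 : t2 < tst (a + 2)) :
    ∃ g0 M : ℝ, 0 < g0 ∧ g0 ≤ 1 ∧ 1 ≤ M ∧ ∀ c r : ℝ, 0 < c → 1 ≤ r → c * r ^ (a + 2) ≤ t2 →
      g0 ≤ Fc a c r ∧ Fc a c r ≤ 1 ∧ F1c a c r ≤ 0 ∧ -F1c a c r ≤ M ∧
      |F3c a c r| ≤ M * (c * r ^ (a - 1)) := by
  have hp : 1 < a + 2 := by linarith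
  have anti : AntitoneOn (GG (a + 2)) (Set.Icc 0 t2) := by
    apply antitoneOn_of_deriv_nonpos (convex_Icc 0 t2)
    · exact fun u _ => (hasDerivAt_GG hp u).continuousAt.continuousWithinAt
    · exact fun u _ => (hasDerivAt_GG hp u).differentiableAt.differentiableWithinAt
    · intro u hu
      have hu' := interior_subset hu
      rw [(hasDerivAt_GG hp u).deriv]
      exact (GG1_neg hp hu'.1 (hu'.2.trans ht2.le)).le
  have hcont : ContinuousOn (GG1 (a + 2)) (Set.Icc 0 t2) :=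
    fun u _ => (hasDerivAt_GG1 hp u).continuousAt.continuousWithinAt
  obtain ⟨M1, hM1⟩ := isCompact_Icc.exists_bound_of_continuousOn hcont
  have hM1' : 0 ≤ M1 := (norm_nonneg _).trans (hM1 0 ⟨le_rfl, h0.le⟩)
  set M : ℝ := 1 + (a + 2) * M1 * t2 + 2 * (|a| + (a + 2) * M1 * t2) with hM
  have hpos : 0 ≤ (a + 2) * M1 * t2 := by positivity
  have habs : 0 ≤ |a| := abs_nonneg a
  refine ⟨GG (a + 2) t2, M, GG_pos hp h0.le ht2, ?_, by rw [hM]; linarith, ?_⟩
  · rw [← GG_zero (a + 2)]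
    exact anti ⟨le_rfl, h0.le⟩ ⟨h0.le, le_rfl⟩ h0.le
  intro c r hc hr hcr
  have hr0 : 0 < r := by linarith
  have htpos : 0 ≤ c * r ^ (a + 2) := by positivity
  have hmem : c * r ^ (a + 2) ∈ Set.Icc 0 t2 := ⟨htpos, hcr⟩
  have hF0 : GG (a + 2) t2 ≤ Fc a c r := anti hmem ⟨h0.le, le_rfl⟩ hcr
  have hF1 : Fc a c r ≤ 1 := by
    rw [← GG_zero (a + 2)]
    exact anti ⟨le_rfl, h0.le⟩ hmem htpos
  have hFpos : 0 < Fc a c r := (GG_pos hp h0.le ht2).trans_le hF0
  have hG1 := hM1 _ hmem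
  rw [Real.norm_eq_abs] at hG1
  have hG1n := GG1_neg hp htpos (hcr.trans ht2.le)
  have e1 : r ^ (a + 2) = r ^ (a + 1) * r := by
    rw [← Real.rpow_add_one hr0.ne']; congr 1; ring
  have hcr1 : c * r ^ (a + 1) ≤ t2 := by
    have : c * r ^ (a + 1) ≤ c * r ^ (a + 2) := by
      apply mul_le_mul_of_nonneg_left _ hc.le
      exact Real.rpow_le_rpow_of_exponent_le hr (by linarith)
    linarith
  have hF1abs : |F1c a c r| ≤ (a + 2) * M1 * (c * r ^ (a + 1)) := by
    unfold F1c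
    rw [abs_mul, abs_of_nonneg (by positivity : 0 ≤ c * (a + 2) * r ^ (a + 1))]
    calc c * (a + 2) * r ^ (a + 1) * |GG1 (a + 2) (c * r ^ (a + 2))|
        ≤ c * (a + 2) * r ^ (a + 1) * M1 := mul_le_mul_of_nonneg_left hG1 (by positivity)
      _ = (a + 2) * M1 * (c * r ^ (a + 1)) := by ring
  refine ⟨hF0, hF1, ?_, ?_, ?_⟩
  · unfold F1c
    exact mul_nonpos_of_nonneg_of_nonpos (by positivity) hG1n.le
  · have h1 : -F1c a c r ≤ |F1c a c r| := neg_le_abs _
    have h2 : (a + 2) * M1 * (c * r ^ (a + 1)) ≤ (a + 2) * M1 * t2 :=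
      mul_le_mul_of_nonneg_left hcr1 (by positivity)
    rw [hM]; linarith
  · unfold F3c
    have e2 : r ^ a = r ^ (a - 1) * r := by
      rw [← Real.rpow_add_one hr0.ne']; congr 1; ring
    have e3 : r ^ (a + 2) = r ^ (a + 1) * r := e1
    have h1 : |a * r ^ (a - 1) * Fc a c r| ≤ |a| * r ^ (a - 1) := by
      rw [abs_mul, abs_mul, abs_of_pos hFpos, abs_of_nonneg (by positivity : 0 ≤ r ^ (a - 1))]
      calc |a| * r ^ (a - 1) * Fc a c r ≤ |a| * r ^ (a - 1) * 1 :=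
            mul_le_mul_of_nonneg_left hF1 (by positivity)
        _ = _ := mul_one _
    have h2 : |r ^ a * F1c a c r| ≤ (a + 2) * M1 * t2 * r ^ (a - 1) := by
      rw [abs_mul, abs_of_nonneg (by positivity : 0 ≤ r ^ a)]
      calc r ^ a * |F1c a c r| ≤ r ^ a * ((a + 2) * M1 * (c * r ^ (a + 1))) :=
            mul_le_mul_of_nonneg_left hF1abs (by positivity)
        _ = (a + 2) * M1 * r ^ (a - 1) * (c * r ^ (a + 2)) := by rw [e2, e3]; ring
        _ ≤ (a + 2) * M1 * r ^ (a - 1) * t2 := mul_le_mul_of_nonneg_left hcr (by positivity)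
        _ = _ := by ring
    calc |-2 * c * (a * r ^ (a - 1) * Fc a c r + r ^ a * F1c a c r)|
        = 2 * c * |a * r ^ (a - 1) * Fc a c r + r ^ a * F1c a c r| := by
          rw [abs_mul, abs_mul, abs_of_pos hc]; norm_num
      _ ≤ 2 * c * (|a| * r ^ (a - 1) + (a + 2) * M1 * t2 * r ^ (a - 1)) := by
          apply mul_le_mul_of_nonneg_left _ (by positivity)
          exact (abs_add_le _ _).trans (add_le_add h1 h2)
      _ = (2 * (|a| + (a + 2) * M1 * t2)) * (c * r ^ (a - 1)) := by ring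
      _ ≤ M * (c * r ^ (a - 1)) := by
          apply mul_le_mul_of_nonneg_right _ (by positivity)
          rw [hM]; linarith

theorem rpow_near {b r u : ℝ} (hr : 0 < r) (h1 : r / 2 ≤ u) (h2 : u ≤ 2 * r) :
    u ^ b ≤ 2 ^ |b| * r ^ b := by
  have hu : 0 < u := by linarith
  have e : u ^ b = (u / r) ^ b * r ^ b := by
    rw [← Real.mul_rpow (by positivity) hr.le]; congr 1; field_simp
  rw [e]
  apply mul_le_mul_of_nonneg_right _ (by positivity)
  have hq1 : 1 / 2 ≤ u / r := by rw [div_le_div_iff₀ (by norm_num) hr]; linarith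
  have hq2 : u / r ≤ 2 := by rw [div_le_iff₀ hr]; linarith
  rcases le_total 0 b with hb | hb
  · rw [abs_of_nonneg hb]
    exact Real.rpow_le_rpow (by positivity) hq2 hb
  · rw [abs_of_nonpos hb]
    calc (u / r) ^ b ≤ (1 / 2 : ℝ) ^ b :=
          Real.rpow_le_rpow_of_nonpos (by norm_num) hq1 hb
      _ = 2 ^ (-b) := by
          rw [one_div, Real.inv_rpow (by norm_num), Real.rpow_neg (by norm_num)]

/-- one sided Taylor estimate for the profile -/
theorem Fc_taylor {a t2 g0 M : ℝ} (ha : -1 < a)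
    (hprof : ∀ c r : ℝ, 0 < c → 1 ≤ r → c * r ^ (a + 2) ≤ t2 →
      g0 ≤ Fc a c r ∧ Fc a c r ≤ 1 ∧ F1c a c r ≤ 0 ∧ -F1c a c r ≤ M ∧
      |F3c a c r| ≤ M * (c * r ^ (a - 1))) (hM : 1 ≤ M)
    {c r s : ℝ} (hc : 0 < c) (hr : 1 ≤ r) (hs : 1 ≤ s) (hcr : c * r ^ (a + 2) ≤ t2)
    (hcs : c * s ^ (a + 2) ≤ t2) (hrs : |s - r| ≤ 1 / 2) :
    Fc a c s ≤ Fc a c r + F1c a c r * (s - r) + (1 / 2) * F2c a c r * (s - r) ^ 2 +
      M * 2 ^ |a - 1| * (c * r ^ (a - 1)) * |s - r| ^ 3 := by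
  have hr0 : 0 < r := by linarith
  have hmem : ∀ u ∈ Set.uIcc r s, 1 ≤ u ∧ c * u ^ (a + 2) ≤ t2 ∧ |u - r| ≤ |s - r| := by
    intro u hu
    have h1 : 1 ≤ u := by
      have := hu.1
      exact (le_min hr hs).trans this
    refine ⟨h1, ?_, ?_⟩
    · rcases le_total r s with h | h
      · have h2 : u ≤ s := by rw [Set.uIcc_of_le h] at hu; exact hu.2
        refine le_trans ?_ hcs
        exact mul_le_mul_of_nonneg_left (Real.rpow_le_rpow (by linarith) h2 (by linarith)) hc.le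
      · have h2 : u ≤ r := by rw [Set.uIcc_of_ge h] at hu; exact hu.2
        refine le_trans ?_ hcr
        exact mul_le_mul_of_nonneg_left (Real.rpow_le_rpow (by linarith) h2 (by linarith)) hc.le
    · exact Set.abs_sub_left_of_mem_uIcc hu
  set D : ℝ := M * 2 ^ |a - 1| * (c * r ^ (a - 1)) with hD
  have hDpos : 0 ≤ D := by positivity
  have hF3 : ∀ u ∈ Set.uIcc r s, |F3c a c u| ≤ D := by
    intro u hu
    obtain ⟨h1, h2, h3⟩ := hmem u hu
    have h4 := (hprof c u hc h1 h2).2.2.2.2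
    have h5 : |u - r| ≤ 1 / 2 := h3.trans hrs
    rw [abs_le] at h5
    have h6 : u ^ (a - 1) ≤ 2 ^ |a - 1| * r ^ (a - 1) :=
      rpow_near hr0 (by linarith) (by linarith)
    calc |F3c a c u| ≤ M * (c * u ^ (a - 1)) := h4
      _ ≤ M * (c * (2 ^ |a - 1| * r ^ (a - 1))) := by
          apply mul_le_mul_of_nonneg_left _ (by linarith)
          exact mul_le_mul_of_nonneg_left h6 hc.le
      _ = D := by rw [hD]; ring
  have hF2 : ∀ u ∈ Set.uIcc r s, F2c a c u ≤ F2c a c r + D * |s - r| := by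
    intro u hu
    have h1 : ‖F2c a c u - F2c a c r‖ ≤ D * ‖u - r‖ := by
      apply Convex.norm_image_sub_le_of_norm_hasDerivWithin_le (s := Set.uIcc r s)
        (f' := F3c a c) (C := D) _ _ (convex_uIcc r s) Set.left_mem_uIcc hu
      · intro v hv
        exact (hasDerivAt_F2c ha (by linarith [(hmem v hv).1])).hasDerivWithinAt
      · intro v hv
        rw [Real.norm_eq_abs]; exact hF3 v hv
    rw [Real.norm_eq_abs, Real.norm_eq_abs] at h1
    have h2 : F2c a c u - F2c a c r ≤ D * |s - r| :=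
      (le_abs_self _).trans (h1.trans (mul_le_mul_of_nonneg_left (hmem u hu).2.2 hDpos))
    linarith
  have key := taylor_upper (F := Fc a c) (F1 := F1c a c) (F2 := F2c a c) (r := r) (s := s)
    (m := F2c a c r + D * |s - r|)
    (fun u hu => hasDerivAt_Fc ha (by linarith [(hmem u hu).1]))
    (fun u hu => hasDerivAt_F1c ha (by linarith [(hmem u hu).1])) hF2
  have e : (s - r) ^ 2 = |s - r| ^ 2 := (sq_abs _).symm
  have h3 : (1 / 2) * (F2c a c r + D * |s - r|) * (s - r) ^ 2 ≤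
      (1 / 2) * F2c a c r * (s - r) ^ 2 + D * |s - r| ^ 3 := by
    have : 0 ≤ D * |s - r| ^ 3 := by positivity
    calc (1 / 2) * (F2c a c r + D * |s - r|) * (s - r) ^ 2
        = (1 / 2) * F2c a c r * (s - r) ^ 2 + (1 / 2) * (D * |s - r| ^ 3) := by
          rw [e]; ring
      _ ≤ _ := by linarith
  linarith

end Pool.Agent.Helper98.LogPoly.SP
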