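import Pool.Agent.Helper98.LogPoly.Sup.Super2
set_option autoImplicit false
namespace Pool.Agent.Helper98.LogPoly.SP
open Filter Topology

theorem nsq_nonneg (x : Pt) : 0 ≤ nsq x := by unfold nsq; positivity

noncomputable def RR (κ N : ℝ) (x : Pt) : ℝ := rho κ x - rho (κ + N) x + (1 / 2) * Real.log N

theorem RR_eq {κ N : ℝ} (x : Pt) : RR κ N x =
    (1 / 2) * (Real.log (κ + nsq x) + Real.log N - Real.log (κ + nsq x + N)) := by
  unfold RR rho
  have : κ + N + nsq x = κ + nsq x + N := by ring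
  rw [this]; ring

theorem one_le_RR {κ N : ℝ} (hκ : 15 ≤ κ) (hN : κ ≤ N) (x : Pt) : 1 ≤ RR κ N x := by
  have hx := nsq_nonneg x
  rw [RR_eq]
  set w := κ + nsq x with hw
  have hwκ : κ ≤ w := by linarith
  have hw0 : 0 < w := by linarith
  have hN0 : 0 < N := by linarith
  rw [← Real.log_mul hw0.ne' hN0.ne', ← Real.log_div (by positivity) (by positivity)]
  have h1 : (7.5 : ℝ) ≤ w * N / (w + N) := by
    rw [le_div_iff₀ (by positivity)]
    nlinarith
  have h2 : (2 : ℝ) ≤ Real.log 7.5 := by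
    rw [Real.le_log_iff_exp_le (by norm_num)]
    have : Real.exp 2 = Real.exp 1 ^ 2 := by
      rw [← Real.exp_nat_mul]; norm_num
    rw [this]
    have := Real.exp_one_lt_d9
    have h0 := Real.exp_pos 1
    nlinarith
  have h3 : Real.log 7.5 ≤ Real.log (w * N / (w + N)) := Real.log_le_log (by norm_num) h1
  linarith

theorem RR_le_logN {κ N : ℝ} (hκ : 15 ≤ κ) (hN : κ ≤ N) (x : Pt) :
    RR κ N x ≤ (1 / 2) * Real.log N := by
  have hx := nsq_nonneg x
  rw [RR_eq]
  have : Real.log (κ + nsq x) ≤ Real.log (κ + nsq x + N) :=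
    Real.log_le_log (by linarith) (by linarith)
  linarith

theorem RR_le_logw {κ N : ℝ} (hκ : 15 ≤ κ) (hN : κ ≤ N) (x : Pt) :
    RR κ N x ≤ (1 / 2) * Real.log (κ + nsq x) := by
  have hx := nsq_nonneg x
  rw [RR_eq]
  have : Real.log N ≤ Real.log (κ + nsq x + N) :=
    Real.log_le_log (by linarith) (by linarith)
  linarith

theorem RR_ge {κ N δ : ℝ} (hκ : 15 ≤ κ) (hN : κ ≤ N) {x : Pt} (hw : κ + nsq x ≤ δ * N) :
    (1 / 2) * Real.log (κ + nsq x) - δ / 2 ≤ RR κ N x := by
  have hx := nsq_nonneg x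
  have hN0 : 0 < N := by linarith
  rw [RR_eq]
  have e : κ + nsq x + N = N * (1 + (κ + nsq x) / N) := by field_simp; ring
  have hpos : 0 < 1 + (κ + nsq x) / N := by positivity
  rw [e, Real.log_mul hN0.ne' hpos.ne']
  have h1 : Real.log (1 + (κ + nsq x) / N) ≤ (κ + nsq x) / N := by
    have := Real.log_le_sub_one_of_pos hpos
    linarith
  have h2 : (κ + nsq x) / N ≤ δ := by rw [div_le_iff₀ hN0]; exact hw
  linarith

/-- increments of `RR` -/
theorem RR_incr : ∃ C κ0 : ℝ, 15 ≤ κ0 ∧ 1 ≤ C ∧ ∀ κ N : ℝ, κ0 ≤ κ → κ ≤ N → C ≤ N → ∀ x : Pt,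
    (∀ i j : Fin 4, |RR κ N (x + stp i - stp j) - RR κ N x| ≤ 2 * C / Real.sqrt (κ + nsq x)) ∧
    (κ - C) / (κ + nsq x) ^ 2 - 2 / N ≤ PD (RR κ N) x - RR κ N x ∧
    nsq x / (κ + nsq x) ^ 2 - C / ((κ + nsq x) * Real.sqrt (κ + nsq x)) -
      2 * C ^ 2 / (Real.sqrt (κ + nsq x) * Real.sqrt (κ + nsq x + N)) ≤
      PD (fun y => (RR κ N y - RR κ N x) ^ 2) x := by
  obtain ⟨C0, κ0, hκ0, hC0, hrad⟩ := rad_bounds
  set C := max C0 1 with hC
  have hCC : C0 ≤ C := le_max_left _ _
  have hC1 : 1 ≤ C := le_max_right _ _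
  refine ⟨C, max κ0 15, le_max_right _ _, hC1, ?_⟩
  intro κ N hκ hN hCN x
  have hκ15 : 15 ≤ κ := (le_max_right _ _).trans hκ
  have hκ00 : κ0 ≤ κ := (le_max_left _ _).trans hκ
  have hx := nsq_nonneg x
  obtain ⟨a1, a2, a3⟩ := hrad κ hκ00 x
  obtain ⟨b1, b2, b3⟩ := hrad (κ + N) (by linarith) x
  have ew : κ + N + nsq x = κ + nsq x + N := by ring
  rw [ew] at b1 b2 b3
  set w := κ + nsq x with hw
  have hw0 : 0 < w := by linarith
  have hN0 : 0 < N := by linarith
  have hwN : 0 < w + N := by linarith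
  have hs : 0 < Real.sqrt w := Real.sqrt_pos.2 hw0
  have hs' : 0 < Real.sqrt (w + N) := Real.sqrt_pos.2 hwN
  have hss : Real.sqrt w ≤ Real.sqrt (w + N) := Real.sqrt_le_sqrt (by linarith)
  have incr : ∀ y, RR κ N y - RR κ N x = (rho κ y - rho κ x) - (rho (κ + N) y - rho (κ + N) x) := by
    intro y; unfold RR; ring
  have A1 : ∀ i j : Fin 4, |rho κ (x + stp i - stp j) - rho κ x| ≤ C / Real.sqrt w := fun i j =>
    (a3 i j).trans (div_le_div_of_nonneg_right hCC hs.le)
  have B1 : ∀ i j : Fin 4, |rho (κ + N) (x + stp i - stp j) - rho (κ + N) x| ≤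
      C / Real.sqrt (w + N) := fun i j =>
    (b3 i j).trans (div_le_div_of_nonneg_right hCC hs'.le)
  refine ⟨?_, ?_, ?_⟩
  · intro i j
    rw [incr]
    have h1 : C / Real.sqrt (w + N) ≤ C / Real.sqrt w :=
      div_le_div_of_nonneg_left (by linarith) hs hss
    calc |(rho κ (x + stp i - stp j) - rho κ x) - (rho (κ + N) (x + stp i - stp j) -
          rho (κ + N) x)| ≤ |rho κ (x + stp i - stp j) - rho κ x| +
          |rho (κ + N) (x + stp i - stp j) - rho (κ + N) x| := abs_sub _ _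
      _ ≤ C / Real.sqrt w + C / Real.sqrt w := add_le_add (A1 i j) ((B1 i j).trans h1)
      _ = 2 * C / Real.sqrt w := by ring
  · have e : PD (RR κ N) x - RR κ N x =
        (PD (rho κ) x - rho κ x) - (PD (rho (κ + N)) x - rho (κ + N) x) := by
      have : PD (RR κ N) x = PD (rho κ) x - PD (rho (κ + N)) x + (1 / 2) * Real.log N := by
        calc PD (RR κ N) x
            = PD (fun y => (rho κ y - rho (κ + N) y) + (1 / 2) * Real.log N) x := rfl
          _ = _ := by rw [PD_add, PD_sub, PD_const]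
      rw [this]; unfold RR; ring
    rw [e]
    have h1 := (abs_le.1 a1).1
    have h2 := (abs_le.1 b1).2
    have h3 : C0 / w ^ 2 ≤ C / w ^ 2 := div_le_div_of_nonneg_right hCC (by positivity)
    have h4 : C0 / (w + N) ^ 2 ≤ 1 / N := by
      calc C0 / (w + N) ^ 2 ≤ N / (w + N) ^ 2 :=
            div_le_div_of_nonneg_right (hCC.trans hCN) (by positivity)
        _ ≤ 1 / N := by
            rw [div_le_div_iff₀ (by positivity) hN0]
            nlinarith
    have h5 : (κ + N) / (w + N) ^ 2 ≤ 1 / N := by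
      rw [div_le_div_iff₀ (by positivity) hN0]
      have : κ ≤ w := by linarith
      nlinarith
    have h6 : (κ - C) / w ^ 2 = κ / w ^ 2 - C / w ^ 2 := by ring
    have h7 : (2 : ℝ) / N = 1 / N + 1 / N := by ring
    rw [h6, h7]
    linarith
  · have h1 : PD (fun y => (rho κ y - rho κ x) ^ 2 -
        2 * C ^ 2 / (Real.sqrt w * Real.sqrt (w + N))) x ≤
        PD (fun y => (RR κ N y - RR κ N x) ^ 2) x := by
      apply PD_mono
      intro i j
      rw [incr]
      set η := rho κ (x + stp i - stp j) - rho κ x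
      set η' := rho (κ + N) (x + stp i - stp j) - rho (κ + N) x
      have hη : |η| ≤ C / Real.sqrt w := A1 i j
      have hη' : |η'| ≤ C / Real.sqrt (w + N) := B1 i j
      have h3 : η * η' ≤ C / Real.sqrt w * (C / Real.sqrt (w + N)) := by
        calc η * η' ≤ |η * η'| := le_abs_self _
          _ = |η| * |η'| := abs_mul _ _
          _ ≤ _ := mul_le_mul hη hη' (abs_nonneg _) (by positivity)
      have h4 : C / Real.sqrt w * (C / Real.sqrt (w + N)) =
          C ^ 2 / (Real.sqrt w * Real.sqrt (w + N)) := by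
        rw [div_mul_div_comm]; ring
      have h5 : 2 * C ^ 2 / (Real.sqrt w * Real.sqrt (w + N)) =
          2 * (C ^ 2 / (Real.sqrt w * Real.sqrt (w + N))) := by ring
      rw [h5, ← h4]
      nlinarith [sq_nonneg η']
    rw [PD_sub, PD_const] at h1
    have h2 := (abs_le.1 a2).1
    have h3 : C0 / (w * Real.sqrt w) ≤ C / (w * Real.sqrt w) :=
      div_le_div_of_nonneg_right hCC (by positivity)
    linarith

end Pool.Agent.Helper98.LogPoly.SP
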