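import Pool.Agent.Helper98.LogPoly.Sup.Super4
set_option autoImplicit false
namespace Pool.Agent.Helper98.LogPoly.SP
open Filter Topology

/-- second moment of the increment of `RR` -/
noncomputable def S2 (κ N : ℝ) (x : Pt) : ℝ := PD (fun y => (RR κ N y - RR κ N x) ^ 2) x

theorem S2_nonneg (κ N : ℝ) (x : Pt) : 0 ≤ S2 κ N x := le_PD (fun _ => sq_nonneg _) x

theorem drift {a t2 g0 M C κ N c A' : ℝ} (ha : -1 < a)
    (hprof : ∀ c r : ℝ, 0 < c → 1 ≤ r → c * r ^ (a + 2) ≤ t2 →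
      g0 ≤ Fc a c r ∧ Fc a c r ≤ 1 ∧ F1c a c r ≤ 0 ∧ -F1c a c r ≤ M ∧
      |F3c a c r| ≤ M * (c * r ^ (a - 1))) (hM : 1 ≤ M) (_hC : 1 ≤ C)
    (hκ : 15 ≤ κ) (hκC : C + 1 ≤ κ) (hκC2 : 16 * C ^ 2 ≤ κ) (hN : κ ≤ N) (hc : 0 < c)
    (hcL : c * ((1 / 2) * Real.log N) ^ (a + 2) ≤ t2) (hA : 0 ≤ A')
    (x : Pt)
    (hinc : ∀ i j : Fin 4, |RR κ N (x + stp i - stp j) - RR κ N x| ≤
      2 * C / Real.sqrt (κ + nsq x))
    (hmean : (κ - C) / (κ + nsq x) ^ 2 - 2 / N ≤ PD (RR κ N) x - RR κ N x) :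
    PD (fun y => Fc a c (RR κ N y) - A' * RR κ N y) x -
      (Fc a c (RR κ N x) - A' * RR κ N x) ≤
      2 * M / N - c * RR κ N x ^ a * Fc a c (RR κ N x) * S2 κ N x +
      (M * 2 ^ |a - 1| * 8 * C ^ 3) * (c * RR κ N x ^ (a - 1)) /
        ((κ + nsq x) * Real.sqrt (κ + nsq x)) -
      A' * (κ - C) / (κ + nsq x) ^ 2 + 2 * A' / N := by
  have hx := nsq_nonneg x
  have hN0 : 0 < N := by linarith
  have hdom : ∀ y, 1 ≤ RR κ N y ∧ c * RR κ N y ^ (a + 2) ≤ t2 := by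
    intro y
    have h1 := one_le_RR hκ hN y
    refine ⟨h1, le_trans ?_ hcL⟩
    exact mul_le_mul_of_nonneg_left
      (Real.rpow_le_rpow (by linarith) (RR_le_logN hκ hN y) (by linarith)) hc.le
  set w := κ + nsq x with hw
  set R := RR κ N x with hR
  have hw0 : 0 < w := by linarith
  have hs : 0 < Real.sqrt w := Real.sqrt_pos.2 hw0
  have hsw : 4 * C ≤ Real.sqrt w := by
    apply Real.le_sqrt_of_sq_le
    nlinarith
  have hhalf : 2 * C / Real.sqrt w ≤ 1 / 2 := by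
    rw [div_le_div_iff₀ hs (by norm_num)]
    linarith
  obtain ⟨hR1, hRt⟩ := hdom x
  obtain ⟨p1, p2, p3, p4, p5⟩ := hprof c R hc hR1 hRt
  set Q3 : ℝ := M * 2 ^ |a - 1| * (c * R ^ (a - 1)) * (2 * C / Real.sqrt w) ^ 3 with hQ3
  have hR0 : 0 < R := by linarith
  have step : ∀ i j : Fin 4, Fc a c (RR κ N (x + stp i - stp j)) ≤
      (Fc a c R + F1c a c R * (RR κ N (x + stp i - stp j) - R)) +
      ((1 / 2) * F2c a c R) * (RR κ N (x + stp i - stp j) - R) ^ 2 + Q3 := by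
    intro i j
    obtain ⟨q1, q2⟩ := hdom (x + stp i - stp j)
    have h1 := Fc_taylor ha hprof hM hc hR1 q1 hRt q2 ((hinc i j).trans hhalf)
    have h2 : M * 2 ^ |a - 1| * (c * R ^ (a - 1)) *
        |RR κ N (x + stp i - stp j) - R| ^ 3 ≤ Q3 := by
      rw [hQ3]
      apply mul_le_mul_of_nonneg_left _ (by positivity)
      exact pow_le_pow_left₀ (abs_nonneg _) (hinc i j) 3
    linarith
  have h1 : PD (fun y => Fc a c (RR κ N y)) x ≤
      PD (fun y => (Fc a c R + F1c a c R * (RR κ N y - R)) +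
        ((1 / 2) * F2c a c R) * (RR κ N y - R) ^ 2 + Q3) x := PD_mono step
  have h2 : PD (fun y => (Fc a c R + F1c a c R * (RR κ N y - R)) +
        ((1 / 2) * F2c a c R) * (RR κ N y - R) ^ 2 + Q3) x =
      (Fc a c R + F1c a c R * (PD (RR κ N) x - R)) + ((1 / 2) * F2c a c R) * S2 κ N x + Q3 := by
    have e1 : PD (fun y => (Fc a c R + F1c a c R * (RR κ N y - R)) +
        ((1 / 2) * F2c a c R) * (RR κ N y - R) ^ 2 + Q3) x =
        PD (fun y => (Fc a c R + F1c a c R * (RR κ N y - R)) +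
        ((1 / 2) * F2c a c R) * (RR κ N y - R) ^ 2) x + PD (fun _ => Q3) x := PD_add _ _ x
    have e2 : PD (fun y => (Fc a c R + F1c a c R * (RR κ N y - R)) +
        ((1 / 2) * F2c a c R) * (RR κ N y - R) ^ 2) x =
        PD (fun y => Fc a c R + F1c a c R * (RR κ N y - R)) x +
        PD (fun y => ((1 / 2) * F2c a c R) * (RR κ N y - R) ^ 2) x := PD_add _ _ x
    have e3 : PD (fun y => Fc a c R + F1c a c R * (RR κ N y - R)) x =
        PD (fun _ => Fc a c R) x + PD (fun y => F1c a c R * (RR κ N y - R)) x := PD_add _ _ x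
    have e4 : PD (fun y => F1c a c R * (RR κ N y - R)) x =
        F1c a c R * PD (fun y => RR κ N y - R) x := PD_mul_left _ _ x
    have e5 : PD (fun y => RR κ N y - R) x = PD (RR κ N) x - PD (fun _ => R) x := PD_sub _ _ x
    have e6 : PD (fun y => ((1 / 2) * F2c a c R) * (RR κ N y - R) ^ 2) x =
        ((1 / 2) * F2c a c R) * S2 κ N x := PD_mul_left _ _ x
    rw [e1, e2, e3, e4, e5, e6, PD_const, PD_const, PD_const]
  have h3 : PD (fun y => Fc a c (RR κ N y) - A' * RR κ N y) x =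
      PD (fun y => Fc a c (RR κ N y)) x - A' * PD (RR κ N) x := by
    rw [PD_sub, PD_mul_left]
  have h4 : (1 / 2) * F2c a c R = -(c * R ^ a * Fc a c R) := by
    unfold F2c Fc; ring
  have h5 : Q3 = (M * 2 ^ |a - 1| * 8 * C ^ 3) * (c * R ^ (a - 1)) / (w * Real.sqrt w) := by
    rw [hQ3, div_pow]
    have : Real.sqrt w ^ 3 = w * Real.sqrt w := by
      calc Real.sqrt w ^ 3 = Real.sqrt w ^ 2 * Real.sqrt w := by ring
        _ = w * Real.sqrt w := by rw [Real.sq_sqrt hw0.le]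
    rw [this]; ring
  -- the first order term
  have h6 : F1c a c R * (PD (RR κ N) x - R) ≤ 2 * M / N := by
    have hκC' : 0 ≤ (κ - C) / w ^ 2 := div_nonneg (by linarith) (by positivity)
    have h7 : -(2 / N) ≤ PD (RR κ N) x - R := by linarith
    calc F1c a c R * (PD (RR κ N) x - R) ≤ F1c a c R * (-(2 / N)) :=
          mul_le_mul_of_nonpos_left h7 p3
      _ = (-F1c a c R) * (2 / N) := by ring
      _ ≤ M * (2 / N) := mul_le_mul_of_nonneg_right p4 (by positivity)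
      _ = 2 * M / N := by ring
  have h8 : A' * ((κ - C) / w ^ 2 - 2 / N) ≤ A' * (PD (RR κ N) x - R) :=
    mul_le_mul_of_nonneg_left hmean hA
  have h9 : A' * ((κ - C) / w ^ 2 - 2 / N) = A' * (κ - C) / w ^ 2 - 2 * A' / N := by ring
  rw [h2, h4] at h1
  rw [h3, ← h5]
  rw [h9] at h8
  linarith

end Pool.Agent.Helper98.LogPoly.SP
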