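import Pool.Agent.Helper98.LogPoly.Sup.Super5
set_option autoImplicit false
namespace Pool.Agent.Helper98.LogPoly.SP
open Filter Topology

theorem exp_le_quad {V : ℝ} (h0 : 0 ≤ V) (h1 : V ≤ 1) : Real.exp V ≤ 1 + V + V ^ 2 := by
  have := Real.abs_exp_sub_one_sub_id_le (x := V) (by rw [abs_of_nonneg h0]; exact h1)
  have := (abs_le.1 this).2
  linarith

theorem exp_sub_one_le {V : ℝ} (h0 : 0 ≤ V) (h1 : V ≤ 1) : Real.exp V - 1 ≤ 2 * V := by
  have := exp_le_quad h0 h1
  nlinarith

theorem exp_le_three {V : ℝ} (h0 : 0 ≤ V) (h1 : V ≤ 1) : Real.exp V ≤ 3 := by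
  have := exp_sub_one_le h0 h1
  linarith

theorem case1_ineq {V e1 X g0 F S' E : ℝ} (he0 : 0 < e1) (he1 : e1 ≤ 1 / 22) (hV0 : 0 ≤ V)
    (hV1 : V ≤ e1) (hX : 0 ≤ X) (hV : V ≤ (1 + e1) ^ 3 * X) (hg0 : 0 < g0) (hF : g0 ≤ F)
    (hS : (1 + 22 * e1) * X * F * (1 - 3 * e1) ≤ S') (hE0 : 0 ≤ E)
    (hE : E ≤ (22 * e1 * g0 / 4) * X) :
    (Real.exp V - 1) * F + Real.exp V * E - S' ≤ 0 := by
  have hexp := exp_le_quad hV0 (by linarith)
  have hFp : 0 < F := by linarith
  have h1 : Real.exp V - 1 ≤ (1 + e1) * V := by nlinarith only [hexp, he0, he1, hV0, hV1]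
  have h2 : (1 + e1) * V ≤ (1 + e1) ^ 4 * X := by
    calc (1 + e1) * V ≤ (1 + e1) * ((1 + e1) ^ 3 * X) :=
          mul_le_mul_of_nonneg_left hV (by linarith)
      _ = _ := by ring
  have h3 : (1 + e1) ^ 4 ≤ 1 + 5 * e1 := by
    have h : (1 + e1) ^ 4 = 1 + 4 * e1 + e1 * (6 * e1 + 4 * e1 ^ 2 + e1 ^ 3) := by ring
    have h5 : e1 ^ 2 ≤ e1 := by nlinarith only [he0, he1]
    have h6 : e1 ^ 3 ≤ e1 := by nlinarith only [he0, h5, he1]
    have h7 : 6 * e1 + 4 * e1 ^ 2 + e1 ^ 3 ≤ 1 := by linarith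
    rw [h]; nlinarith only [he1, h5, he0]
  have h4 : Real.exp V - 1 ≤ (1 + 5 * e1) * X :=
    h1.trans (h2.trans (mul_le_mul_of_nonneg_right h3 hX))
  have h5 : Real.exp V ≤ 2 := by nlinarith only [he1, hV1, h1, he0]
  have h6 : Real.exp V * E ≤ 2 * ((22 * e1 * g0 / 4) * X) := mul_le_mul h5 hE hE0 (by norm_num)
  have h7 : (Real.exp V - 1) * F ≤ (1 + 5 * e1) * X * F := mul_le_mul_of_nonneg_right h4 hFp.le
  have h8 : (1 + 16 * e1) ≤ (1 + 22 * e1) * (1 - 3 * e1) := by nlinarith only [he0, he1]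
  have hXF : 0 ≤ X * F := by positivity
  have h9 : (1 + 16 * e1) * (X * F) ≤ S' := by
    calc (1 + 16 * e1) * (X * F) ≤ ((1 + 22 * e1) * (1 - 3 * e1)) * (X * F) :=
          mul_le_mul_of_nonneg_right h8 hXF
      _ = (1 + 22 * e1) * X * F * (1 - 3 * e1) := by ring
      _ ≤ S' := hS
  have h10 : X * g0 ≤ X * F := mul_le_mul_of_nonneg_left hF hX
  nlinarith only [h6, h7, h9, he0, h10]

theorem case2_ineq {V B H F E M' Q c W w A κ C rm : ℝ} (hB : 0 < B) (hV0 : 0 ≤ V) (hV1 : V ≤ 1)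
    (hV : V ≤ B * H) (_hF0 : 0 ≤ F) (hF1 : F ≤ 1) (hM' : 0 < M') (hQ : 0 < Q) (hH : 0 < H)
    (hE : E ≤ M' * (c * rm)) (hrm : 0 ≤ rm) (hrmQ : rm ≤ Q) (hc : c ≤ 2 * B) (_hc0 : 0 < c)
    (hE0 : 0 ≤ E) (hA : A = (4 * H + 8 * M' * Q) * W ^ 2) (hκ : C + 1 ≤ κ) (hw : 0 < w)
    (hwW : w ≤ W) :
    (Real.exp V - 1) * F + Real.exp V * E - A * B * (κ - C) / w ^ 2 ≤ 0 := by
  have h1 : (Real.exp V - 1) * F ≤ 2 * (B * H) := by
    have h2 := exp_sub_one_le hV0 hV1
    have h3 : 0 ≤ Real.exp V - 1 := by linarith [Real.one_le_exp hV0]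
    calc (Real.exp V - 1) * F ≤ (Real.exp V - 1) * 1 := mul_le_mul_of_nonneg_left hF1 h3
      _ ≤ 2 * (B * H) := by linarith
  have h2 : E ≤ M' * (2 * B * Q) := by
    refine hE.trans (mul_le_mul_of_nonneg_left ?_ hM'.le)
    exact mul_le_mul hc hrmQ hrm (by linarith)
  have h3 : Real.exp V * E ≤ 3 * (M' * (2 * B * Q)) :=
    mul_le_mul (exp_le_three hV0 hV1) h2 hE0 (by norm_num)
  have hW : 0 < W := by linarith
  have h4 : (4 * H + 8 * M' * Q) * B ≤ A * B * (κ - C) / w ^ 2 := by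
    rw [le_div_iff₀ (by positivity), hA]
    have h5 : w ^ 2 ≤ W ^ 2 := pow_le_pow_left₀ hw.le hwW 2
    have h6 : 0 ≤ (4 * H + 8 * M' * Q) * B := by positivity
    calc (4 * H + 8 * M' * Q) * B * w ^ 2 ≤ (4 * H + 8 * M' * Q) * B * W ^ 2 :=
          mul_le_mul_of_nonneg_left h5 h6
      _ = ((4 * H + 8 * M' * Q) * W ^ 2 * B) * 1 := by ring
      _ ≤ ((4 * H + 8 * M' * Q) * W ^ 2 * B) * (κ - C) :=
          mul_le_mul_of_nonneg_left (by linarith) (by positivity)
  have h5 : 0 ≤ B * H := by positivity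
  have h6 : 0 ≤ M' * B * Q := by positivity
  linarith only [hV0, hV, hE0, h1, h2, h3, h4]

theorem super_fun {a : ℝ} (ha : -1 < a) {h : Pt → ℝ} (hnn : ∀ x, 0 ≤ h x) (hh : HAsym a h)
    {t1 : ℝ} (h0 : 0 < t1) (ht1 : t1 < tst (a + 2)) :
    ∃ c0 K B0 : ℝ, ∃ N0 : ℕ, 0 < c0 ∧ 0 ≤ K ∧ 0 < B0 ∧ ∀ B : ℝ, 0 < B → B < B0 →
      ∀ N : ℕ, N0 ≤ N → 1 ≤ N → B * ((1 / 2) * Real.log N) ^ (a + 2) ≤ t1 →
      ∃ f : Pt → ℝ, (∀ x, c0 ≤ f x) ∧ (∀ x, f x ≤ 1) ∧
        ∀ x, Real.exp (B * h x) * PD f x ≤ f x + K / N := by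
  set T := tst (a + 2) with hT
  -- epsilon
  obtain ⟨ε, hε0, hε1, hεT⟩ : ∃ ε : ℝ, 0 < ε ∧ ε ≤ 1 ∧ (1 + ε) * t1 < T := by
    refine ⟨min 1 ((T / t1 - 1) / 2), ?_, min_le_left _ _, ?_⟩
    · apply lt_min one_pos
      have : 1 < T / t1 := by rwa [lt_div_iff₀ h0, one_mul]
      linarith
    · have h1 : min 1 ((T / t1 - 1) / 2) ≤ (T / t1 - 1) / 2 := min_le_right _ _
      have h2 : 1 < T / t1 := by rwa [lt_div_iff₀ h0, one_mul]
      calc (1 + min 1 ((T / t1 - 1) / 2)) * t1 ≤ (1 + (T / t1 - 1) / 2) * t1 :=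
            mul_le_mul_of_nonneg_right (by linarith) h0.le
        _ < (T / t1) * t1 := mul_lt_mul_of_pos_right (by linarith) h0
        _ = T := by field_simp
  set t2 := (1 + ε) * t1 with ht2
  have ht20 : 0 < t2 := by positivity
  obtain ⟨g0, M, hg0, hg1, hM, hprof⟩ := profile ha ht20 hεT
  obtain ⟨C, κ0, hκ0, hC, hincr⟩ := RR_incr
  set κ := max κ0 (max (C + 1) (16 * C ^ 2)) with hκdef
  have hκκ0 : κ0 ≤ κ := le_max_left _ _
  have hκ15 : 15 ≤ κ := hκ0.trans hκκ0
  have hκC : C + 1 ≤ κ := (le_max_left _ _).trans (le_max_right _ _)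
  have hκC2 : 16 * C ^ 2 ≤ κ := (le_max_right _ _).trans (le_max_right _ _)
  have hC0 : 0 < C := by linarith
  set M' : ℝ := M * 2 ^ |a - 1| * 8 * C ^ 3 with hM'
  have hM'0 : 0 < M' := by positivity
  set e1 : ℝ := ε / 22 with he1
  have he10 : 0 < e1 := by positivity
  have he11 : e1 ≤ 1 / 22 := by rw [he1]; linarith
  obtain ⟨δ0, ρ1, hδ0, hρ1, hnear⟩ := h_near hh he10 hκ15
  set δ : ℝ := min δ0 (min 1 ((e1 / (2 * C ^ 2)) ^ 2)) with hδ
  have hδpos : 0 < δ := by
    apply lt_min hδ0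
    apply lt_min one_pos
    positivity
  have hδδ0 : δ ≤ δ0 := min_le_left _ _
  have hδ1 : δ ≤ 1 := (min_le_right _ _).trans (min_le_left _ _)
  have hδe : δ ≤ (e1 / (2 * C ^ 2)) ^ 2 := (min_le_right _ _).trans (min_le_right _ _)
  obtain ⟨K3, N3, hK3, hN3, hfar⟩ := h_far ha hh hδpos hδ1 ht20
  obtain ⟨H, hH, hHb⟩ := h_bdd hh
  -- thresholds
  set ρ2 : ℝ := max ρ1 (max (κ / e1) (max ((C / e1) ^ 2) (max (2 * t2 / e1)
    ((8 * M' / (ε * g0)) ^ 2)))) with hρ2
  have r1 : ρ1 ≤ ρ2 := le_max_left _ _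
  have r2 : κ / e1 ≤ ρ2 := (le_max_left _ _).trans (le_max_right _ _)
  have r3 : (C / e1) ^ 2 ≤ ρ2 :=
    ((le_max_left _ _).trans (le_max_right _ _)).trans (le_max_right _ _)
  have r4 : 2 * t2 / e1 ≤ ρ2 :=
    (((le_max_left _ _).trans (le_max_right _ _)).trans (le_max_right _ _)).trans
      (le_max_right _ _)
  have r5 : (8 * M' / (ε * g0)) ^ 2 ≤ ρ2 :=
    (((le_max_right _ _).trans (le_max_right _ _)).trans (le_max_right _ _)).trans
      (le_max_right _ _)
  set W : ℝ := κ + ρ2 with hW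
  have hW0 : 1 ≤ W := by linarith
  set Q : ℝ := ((1 / 2) * Real.log W) ^ |a - 1| with hQ
  have hlogW : 1 ≤ (1 / 2) * Real.log W := one_le_half_log (by linarith only [hκ0, hκκ0, hρ1, r1])
  have hQ0 : 0 < Q := by positivity
  set A : ℝ := (4 * H + 8 * M' * Q) * W ^ 2 with hA
  have hA0 : 0 < A := by positivity
  -- B0
  obtain ⟨B1, hB10, hB1⟩ : ∃ B1 : ℝ, 0 < B1 ∧ ∀ B : ℝ, 0 < B → B < B1 →
      ∀ L : ℝ, 0 ≤ L → B * L ^ (a + 2) ≤ t1 → A * B * L ≤ g0 / 2 := by
    set θ : ℝ := (a + 1) / (a + 2) with hθ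
    have hθ0 : 0 < θ := div_pos (by linarith) (by linarith)
    have hcont : ContinuousAt (fun z : ℝ => z ^ θ) 0 :=
      Real.continuousAt_rpow_const 0 θ (Or.inr hθ0.le)
    set τ : ℝ := t1 ^ (1 / (a + 2)) with hτ
    have hτ0 : 0 < τ := Real.rpow_pos_of_pos h0 _
    obtain ⟨B1, hB1, hB1'⟩ := Metric.continuousAt_iff.1 hcont (g0 / 2 / (A * τ)) (by positivity)
    refine ⟨B1, hB1, ?_⟩
    intro B hB hBB L hL hBL
    have h1 := hB1' (x := B) (by rw [Real.dist_eq, sub_zero, abs_of_pos hB]; exact hBB)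
    rw [Real.dist_eq, Real.zero_rpow hθ0.ne', sub_zero, abs_of_nonneg (by positivity)] at h1
    have ha2 : 0 < a + 2 := by linarith
    have h2 : B ^ (1 / (a + 2)) * L ≤ τ := by
      have h3 : (B * L ^ (a + 2)) ^ (1 / (a + 2)) ≤ t1 ^ (1 / (a + 2)) :=
        Real.rpow_le_rpow (by positivity) hBL (by positivity)
      rw [Real.mul_rpow hB.le (by positivity), ← Real.rpow_mul hL] at h3
      rw [mul_one_div, div_self ha2.ne', Real.rpow_one] at h3
      exact h3
    have h3 : B = B ^ θ * B ^ (1 / (a + 2)) := by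
      rw [← Real.rpow_add hB]
      have : θ + 1 / (a + 2) = 1 := by rw [hθ]; field_simp; ring
      rw [this, Real.rpow_one]
    calc A * B * L = A * (B ^ θ * (B ^ (1 / (a + 2)) * L)) := by
          conv_lhs => rw [h3]
          ring
      _ ≤ A * (g0 / 2 / (A * τ) * τ) := by
          apply mul_le_mul_of_nonneg_left _ hA0.le
          exact mul_le_mul h1.le h2 (by positivity) (by positivity)
      _ = g0 / 2 := by field_simp
  set KK : ℝ := 2 * K3 + 3 * (2 * M + 2 * A + M' * t2 / δ) with hKK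
  have hKK0 : 0 < KK := by positivity
  refine ⟨g0 / 2, KK, min B1 (min 1 (1 / H)), ⌈max κ (max C (max N3 (max (2 * κ / δ) K3)))⌉₊,
    by positivity, hKK0.le, ?_, ?_⟩
  · exact lt_min hB10 (lt_min one_pos (by positivity))
  intro B hB hBB0 N hN0 hN1 hBL
  have hBB1 : B < B1 := hBB0.trans_le (min_le_left _ _)
  have hB1' : B < 1 := hBB0.trans_le ((min_le_right _ _).trans (min_le_left _ _))
  have hBH : B * H ≤ 1 := by
    have : B < 1 / H := hBB0.trans_le ((min_le_right _ _).trans (min_le_right _ _))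
    rw [lt_div_iff₀ hH] at this
    exact this.le
  have hNR : max κ (max C (max N3 (max (2 * κ / δ) K3))) ≤ (N : ℝ) :=
    (Nat.le_ceil _).trans (by exact_mod_cast hN0)
  have n1 : κ ≤ (N : ℝ) := (le_max_left _ _).trans hNR
  have n2 : C ≤ (N : ℝ) := ((le_max_left _ _).trans (le_max_right _ _)).trans hNR
  have n3 : N3 ≤ (N : ℝ) :=
    (((le_max_left _ _).trans (le_max_right _ _)).trans (le_max_right _ _)).trans hNR
  have n4 : 2 * κ / δ ≤ (N : ℝ) :=
    ((((le_max_left _ _).trans (le_max_right _ _)).trans (le_max_right _ _)).trans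
      (le_max_right _ _)).trans hNR
  have n5 : K3 ≤ (N : ℝ) :=
    ((((le_max_right _ _).trans (le_max_right _ _)).trans (le_max_right _ _)).trans
      (le_max_right _ _)).trans hNR
  have hNpos : (0 : ℝ) < N := by linarith only [hκ0, hκκ0, n1]
  set L : ℝ := (1 / 2) * Real.log N with hL
  have hL1 : 1 ≤ L := one_le_half_log (by linarith)
  set c : ℝ := (1 + ε) * B with hc
  have hc0 : 0 < c := by positivity
  have hcL : c * L ^ (a + 2) ≤ t2 := by
    calc c * L ^ (a + 2) = (1 + ε) * (B * L ^ (a + 2)) := by rw [hc]; ring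
      _ ≤ (1 + ε) * t1 := mul_le_mul_of_nonneg_left hBL (by linarith only [hε0])
  have hdom : ∀ y, 1 ≤ RR κ N y ∧ c * RR κ N y ^ (a + 2) ≤ t2 := by
    intro y
    have h1 := one_le_RR hκ15 n1 y
    refine ⟨h1, le_trans ?_ hcL⟩
    exact mul_le_mul_of_nonneg_left
      (Real.rpow_le_rpow (by linarith) (RR_le_logN hκ15 n1 y) (by linarith only [ha])) hc0.le
  refine ⟨fun y => Fc a c (RR κ N y) - A * B * RR κ N y, ?_, ?_, ?_⟩
  · intro y
    obtain ⟨d1, d2⟩ := hdom y
    have h1 := (hprof c _ hc0 d1 d2).1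
    have h2 := hB1 B hB hBB1 L (by linarith only [hL1]) hBL
    have h3 : A * B * RR κ N y ≤ A * B * L :=
      mul_le_mul_of_nonneg_left (RR_le_logN hκ15 n1 y) (by positivity)
    show g0 / 2 ≤ Fc a c (RR κ N y) - A * B * RR κ N y
    linarith only [h1, h2, h3]
  · intro y
    obtain ⟨d1, d2⟩ := hdom y
    have h1 := (hprof c _ hc0 d1 d2).2.1
    have h3 : 0 ≤ A * B * RR κ N y := by positivity
    show Fc a c (RR κ N y) - A * B * RR κ N y ≤ 1
    linarith only [h1, h3]
  intro x
  obtain ⟨i1, i2, i3⟩ := hincr κ N hκκ0 n1 n2 x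
  have hdr := drift (A' := A * B) ha hprof hM hC hκ15 hκC hκC2 n1 hc0 hcL (by positivity) x i1 i2
  set P := PD (fun y => Fc a c (RR κ N y) - A * B * RR κ N y) x with hP
  obtain ⟨hR1, hRt⟩ := hdom x
  obtain ⟨p1, p2, p3, p4, p5⟩ := hprof c _ hc0 hR1 hRt
  have hS2 := S2_nonneg κ N x
  have hS2' : nsq x / (κ + nsq x) ^ 2 - C / ((κ + nsq x) * Real.sqrt (κ + nsq x)) -
      2 * C ^ 2 / (Real.sqrt (κ + nsq x) * Real.sqrt (κ + nsq x + N)) ≤ S2 κ N x := i3
  have hRw := RR_le_logw hκ15 n1 x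
  have hx := nsq_nonneg x
  have hwx : κ + nsq x ≤ κ + nsq x := le_rfl
  set R := RR κ N x with hR
  set S := S2 κ N x with hS
  set F := Fc a c R with hF
  set w := κ + nsq x with hw
  have hw0 : 0 < w := by linarith only [hκ0, hκκ0, hx]
  have hw1 : 1 ≤ w := by linarith only [hκ0, hκκ0, hx]
  have hs : 0 < Real.sqrt w := Real.sqrt_pos.2 hw0
  have hs1 : 1 ≤ Real.sqrt w := by
    rw [show (1 : ℝ) = Real.sqrt 1 from Real.sqrt_one.symm]
    exact Real.sqrt_le_sqrt hw1
  have hR0 : 0 < R := by linarith only [hε1, he1, he10, hR1]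
  have hF0 : 0 < F := hg0.trans_le p1
  have hRa : 0 < R ^ a := Real.rpow_pos_of_pos hR0 a
  have hRa1 : 0 < R ^ (a - 1) := Real.rpow_pos_of_pos hR0 _
  set V := B * h x with hV
  have hV0 : 0 ≤ V := mul_nonneg hB.le (hnn x)
  have hVH : V ≤ 1 := (mul_le_mul_of_nonneg_left (hHb x) hB.le).trans hBH
  have hexp := exp_le_quad hV0 hVH
  have hexp1 : 1 ≤ Real.exp V := Real.one_le_exp hV0
  -- reduce
  set f := F - A * B * R with hf
  have hfF : f ≤ F := by
    have : 0 ≤ A * B * R := by positivity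
    rw [hf]; linarith only [this]
  have hAB : 2 * (A * B) / N ≤ 2 * A / N := by
    apply div_le_div_of_nonneg_right _ hNpos.le
    have : A * B ≤ A := mul_le_of_le_one_right hA0.le hB1'.le
    linarith only [this]
  set E3 : ℝ := M' * (c * R ^ (a - 1)) / (w * Real.sqrt w) with hE3
  have hE30 : 0 ≤ E3 := by positivity
  have hneg2 : 0 ≤ A * B * (κ - C) / w ^ 2 := by
    apply div_nonneg _ (by positivity)
    exact mul_nonneg (by positivity) (by linarith only [hε1, hκC, he1, he10])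
  have hD : P - f ≤ 2 * M / N + 2 * A / N + E3 - c * R ^ a * F * S -
      A * B * (κ - C) / w ^ 2 := by linarith only [hAB, hdr]
  have hneg1 : 0 ≤ c * R ^ a * F * S := by positivity
  have hNn : 0 ≤ 2 * M / N + 2 * A / N := by positivity
  have hexp3 : Real.exp V ≤ 3 := exp_le_three hV0 hVH
  -- main reduction : exp V * P - f ≤ (exp V - 1) F + exp V (2M/N + 2A/N + E3) - neg
  have main : Real.exp V * P - f ≤ (Real.exp V - 1) * F +
      Real.exp V * (2 * M / N + 2 * A / N + E3) - c * R ^ a * F * S -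
      A * B * (κ - C) / w ^ 2 := by
    have h1 : Real.exp V * P - f = (Real.exp V - 1) * f + Real.exp V * (P - f) := by ring
    have h2 : (Real.exp V - 1) * f ≤ (Real.exp V - 1) * F :=
      mul_le_mul_of_nonneg_left hfF (by linarith only [hexp1])
    have h3 : Real.exp V * (P - f) ≤ Real.exp V * (2 * M / N + 2 * A / N + E3 -
        c * R ^ a * F * S - A * B * (κ - C) / w ^ 2) :=
      mul_le_mul_of_nonneg_left hD (Real.exp_pos _).le
    have h4 : c * R ^ a * F * S ≤ Real.exp V * (c * R ^ a * F * S) :=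
      le_mul_of_one_le_left hneg1 hexp1
    have h5 : A * B * (κ - C) / w ^ 2 ≤ Real.exp V * (A * B * (κ - C) / w ^ 2) :=
      le_mul_of_one_le_left hneg2 hexp1
    have h6 : Real.exp V * (2 * M / N + 2 * A / N + E3 -
        c * R ^ a * F * S - A * B * (κ - C) / w ^ 2) =
        Real.exp V * (2 * M / N + 2 * A / N + E3) - Real.exp V * (c * R ^ a * F * S) -
        Real.exp V * (A * B * (κ - C) / w ^ 2) := by ring
    linarith only [h2, h3, h4, h5]
  have hKKN : KK / N = 2 * (K3 / N) + 3 * (2 * M / N + 2 * A / N) + 3 * (M' * t2 / δ / N) := by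
    rw [hKK]; ring
  have hZ : Real.exp V * (2 * M / N + 2 * A / N) ≤ 3 * (2 * M / N + 2 * A / N) :=
    mul_le_mul_of_nonneg_right hexp3 hNn
  have hK3n : 0 ≤ K3 / N := by positivity
  have hK4n : 0 ≤ M' * t2 / δ / N := by positivity
  have main2 : Real.exp V * P - f ≤ (Real.exp V - 1) * F + Real.exp V * E3 -
      c * R ^ a * F * S - A * B * (κ - C) / w ^ 2 + 3 * (2 * M / N + 2 * A / N) := by
    have h1 : Real.exp V * (2 * M / N + 2 * A / N + E3) =
      Real.exp V * (2 * M / N + 2 * A / N) + Real.exp V * E3 := by ring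
    linarith only [main, hZ]
  have goal : Real.exp V * P - f ≤ KK / N := by
    rw [hKKN]
    rcases lt_or_ge (δ * N) w with hcase | hcase
    · -- Case 3 : far
      have hx' : δ * N / 2 ≤ nsq x := by
        rw [div_le_iff₀ hδpos] at n4
        have : w = κ + nsq x := hw
        linarith only [n4, hcase]
      have ht12 : t1 ≤ t2 := le_mul_of_one_le_left h0.le (by linarith only [he1, he10])
      have hV3 : V ≤ K3 / N := hfar N B n3 hB hB1'.le (hBL.trans ht12) x hx'
      have hE : E3 ≤ M' * t2 / δ / N := by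
        have h1 : c * R ^ (a - 1) ≤ t2 := by
          refine le_trans ?_ hRt
          exact mul_le_mul_of_nonneg_left
            (Real.rpow_le_rpow_of_exponent_le hR1 (by linarith only [hε1, he1, he10])) hc0.le
        have h2 : δ * N ≤ w * Real.sqrt w :=
          hcase.le.trans (le_mul_of_one_le_right hw0.le hs1)
        calc E3 ≤ M' * t2 / (w * Real.sqrt w) := by
              rw [hE3]
              apply div_le_div_of_nonneg_right _ (by positivity)
              exact mul_le_mul_of_nonneg_left h1 hM'0.le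
          _ ≤ M' * t2 / (δ * N) :=
              div_le_div_of_nonneg_left (by positivity) (by positivity) h2
          _ = M' * t2 / δ / N := by rw [div_div]
      have he2 := exp_sub_one_le hV0 hVH
      have he3 : (Real.exp V - 1) * F ≤ 2 * (K3 / N) := by
        calc (Real.exp V - 1) * F ≤ (Real.exp V - 1) * 1 :=
              mul_le_mul_of_nonneg_left p2 (by linarith only [hexp1])
          _ ≤ _ := by linarith only [hV3, he2]
      have he4 : Real.exp V * E3 ≤ 3 * (M' * t2 / δ / N) :=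
        mul_le_mul hexp3 hE hE30 (by norm_num)
      linarith only [hneg2, hneg1, main, hZ, he3, he4]
    · rcases lt_or_ge (nsq x) ρ2 with hcase2 | hcase2
      · -- Case 2 : close
        have hwW : w ≤ W := by rw [hw, hW]; linarith only [hcase2]
        have hRW : R ≤ (1 / 2) * Real.log W := by
          refine hRw.trans ?_
          have := Real.log_le_log hw0 hwW
          linarith only [this]
        have hrmQ : R ^ (a - 1) ≤ Q := by
          calc R ^ (a - 1) ≤ R ^ |a - 1| :=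
                Real.rpow_le_rpow_of_exponent_le hR1 (le_abs_self _)
            _ ≤ Q := Real.rpow_le_rpow hR0.le hRW (abs_nonneg _)
        have hE : E3 ≤ M' * (c * R ^ (a - 1)) := by
          rw [hE3]
          apply div_le_self (by positivity)
          have := le_mul_of_one_le_right hw0.le hs1
          linarith only [hε1, hκ0, hκκ0, he1, he10, hx, this]
        have hc2 : c ≤ 2 * B := mul_le_mul_of_nonneg_right (by linarith only [hε1]) hB.le
        have key := case2_ineq (V := V) (B := B) (H := H) (F := F) (E := E3) (M' := M') (Q := Q)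
          (c := c) (W := W) (w := w) (A := A) (κ := κ) (C := C) (rm := R ^ (a - 1)) hB hV0 hVH
          (mul_le_mul_of_nonneg_left (hHb x) hB.le) hF0.le p2 hM'0 hQ0 hH hE hRa1.le hrmQ hc2 hc0
          hE30 hA hκC hw0 hwW
        linarith only [hneg1, main, hZ, hK3n, hK4n, key]
      · -- Case 1
        have hX0 : 0 ≤ B * R ^ a / w := by positivity
        have hwρ : ρ2 ≤ w := by rw [hw]; linarith only [hε1, hκ0, hκκ0, he1, he10, hcase2]
        have hVX : V ≤ (1 + e1) ^ 3 * (B * R ^ a / w) := by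
          have h1 := hnear N n1 x (r1.trans hcase2)
            (hcase.trans (mul_le_mul_of_nonneg_right hδδ0 hNpos.le))
          calc V ≤ B * ((1 + e1) ^ 3 * (R ^ a / w)) := mul_le_mul_of_nonneg_left h1 hB.le
            _ = _ := by ring
        have hBRt : B * R ^ a ≤ t2 := by
          have h1 : B * R ^ a ≤ c * R ^ (a + 2) := by
            apply mul_le_mul _ (Real.rpow_le_rpow_of_exponent_le hR1 (by linarith only [hε1, he1, he10])) hRa.le hc0.le
            exact le_mul_of_one_le_left hB.le (by linarith only [he1, he10])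
          exact h1.trans hRt
        have he13 : (1 + e1) ^ 3 ≤ 2 := by
          calc (1 + e1) ^ 3 ≤ (1 + 1 / 22) ^ 3 := pow_le_pow_left₀ (by linarith only [hε1, he1, he10]) (by linarith only [hε1, he1]) 3
            _ ≤ 2 := by norm_num
        have hVe : V ≤ e1 := by
          have h1 : B * R ^ a / w ≤ t2 / w := div_le_div_of_nonneg_right hBRt hw0.le
          have h2 : V ≤ 2 * (t2 / w) :=
            hVX.trans (mul_le_mul he13 h1 hX0 (by norm_num))
          have h3 : 2 * (t2 / w) ≤ e1 := by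
            have := r4.trans hwρ
            rw [div_le_iff₀ he10] at this
            rw [← mul_div_assoc, div_le_iff₀ hw0]
            linarith only [this]
          exact h2.trans h3
        have hSS : (1 - 3 * e1) / w ≤ S := by
          refine le_trans ?_ hS2'
          have u1 : nsq x / w ^ 2 = 1 / w - κ / w ^ 2 := by
            have : nsq x = w - κ := by rw [hw]; ring
            rw [this]; field_simp
          have u2 : κ / w ^ 2 ≤ e1 / w := by
            have := r2.trans hwρ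
            rw [div_le_iff₀ he10] at this
            rw [div_le_div_iff₀ (by positivity) hw0, pow_two]
            calc κ * w ≤ (w * e1) * w := mul_le_mul_of_nonneg_right this hw0.le
              _ = e1 * (w * w) := by ring
          have u3 : C / (w * Real.sqrt w) ≤ e1 / w := by
            have h1 : C / e1 ≤ Real.sqrt w := Real.le_sqrt_of_sq_le (r3.trans hwρ)
            rw [div_le_iff₀ he10] at h1
            rw [div_le_div_iff₀ (by positivity) hw0]
            calc C * w ≤ (Real.sqrt w * e1) * w := mul_le_mul_of_nonneg_right h1 hw0.le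
              _ = e1 * (w * Real.sqrt w) := by ring
          have u4 : 2 * C ^ 2 / (Real.sqrt w * Real.sqrt (w + N)) ≤ e1 / w := by
            have h1 : Real.sqrt w ≤ e1 / (2 * C ^ 2) * Real.sqrt (w + N) := by
              have h2 : w ≤ (e1 / (2 * C ^ 2)) ^ 2 * (w + N) := by
                calc w ≤ δ * N := hcase
                  _ ≤ (e1 / (2 * C ^ 2)) ^ 2 * N := mul_le_mul_of_nonneg_right hδe hNpos.le
                  _ ≤ (e1 / (2 * C ^ 2)) ^ 2 * (w + N) :=
                      mul_le_mul_of_nonneg_left (by linarith only [hε1, hκ0, hκκ0, he1, he10, hρ1, r1, hcase2]) (by positivity)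
              calc Real.sqrt w ≤ Real.sqrt ((e1 / (2 * C ^ 2)) ^ 2 * (w + N)) :=
                    Real.sqrt_le_sqrt h2
                _ = e1 / (2 * C ^ 2) * Real.sqrt (w + N) := by
                    rw [Real.sqrt_mul (by positivity), Real.sqrt_sq (by positivity)]
            have hs' : 0 < Real.sqrt (w + N) := Real.sqrt_pos.2 (by linarith only [hε1, hκ0, hκκ0, he1, he10, hρ1, r1, n1, hcase2])
            rw [div_le_div_iff₀ (by positivity) hw0]
            have h3 : Real.sqrt w * Real.sqrt w = w := Real.mul_self_sqrt hw0.le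
            calc 2 * C ^ 2 * w = 2 * C ^ 2 * Real.sqrt w * Real.sqrt w := by
                  rw [mul_assoc (2 * C ^ 2), h3]
              _ ≤ 2 * C ^ 2 * Real.sqrt w * (e1 / (2 * C ^ 2) * Real.sqrt (w + N)) :=
                  mul_le_mul_of_nonneg_left h1 (by positivity)
              _ = e1 * (Real.sqrt w * Real.sqrt (w + N)) := by field_simp
          have u5 : (1 - 3 * e1) / w = 1 / w - e1 / w - e1 / w - e1 / w := by ring
          rw [u1, u5]
          linarith only [u2, u3, u4]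
        have hSbig : (1 + 22 * e1) * (B * R ^ a / w) * F * (1 - 3 * e1) ≤ c * R ^ a * F * S := by
          have e22 : 22 * e1 = ε := by rw [he1]; ring
          rw [e22]
          calc (1 + ε) * (B * R ^ a / w) * F * (1 - 3 * e1)
              = ((1 + ε) * B * R ^ a * F) * ((1 - 3 * e1) / w) := by ring
            _ ≤ ((1 + ε) * B * R ^ a * F) * S := mul_le_mul_of_nonneg_left hSS (by positivity)
            _ = c * R ^ a * F * S := by rw [hc]
        have hEsmall : E3 ≤ (22 * e1 * g0 / 4) * (B * R ^ a / w) := by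
          have e22 : 22 * e1 = ε := by rw [he1]; ring
          rw [e22]
          have h1 : 8 * M' / (ε * g0) ≤ Real.sqrt w := Real.le_sqrt_of_sq_le (r5.trans hwρ)
          rw [div_le_iff₀ (by positivity)] at h1
          have h2 : R ^ (a - 1) ≤ R ^ a := Real.rpow_le_rpow_of_exponent_le hR1 (by linarith only [hε1, he1, he10])
          have h3 : c * R ^ (a - 1) ≤ 2 * B * R ^ a :=
            mul_le_mul (mul_le_mul_of_nonneg_right (by linarith only [hε1]) hB.le) h2 hRa1.le (by positivity)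
          have h4 : M' * (c * R ^ (a - 1)) ≤ M' * (2 * B * R ^ a) :=
            mul_le_mul_of_nonneg_left h3 hM'0.le
          rw [hE3, div_le_iff₀ (by positivity)]
          calc M' * (c * R ^ (a - 1)) ≤ M' * (2 * B * R ^ a) := h4
            _ = (8 * M') * (B * R ^ a / 4) := by ring
            _ ≤ (Real.sqrt w * (ε * g0)) * (B * R ^ a / 4) :=
                mul_le_mul_of_nonneg_right h1 (by positivity)
            _ = ε * g0 / 4 * (B * R ^ a / w) * (w * Real.sqrt w) := by field_simp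
        have key := case1_ineq (V := V) (e1 := e1) (X := B * R ^ a / w) (g0 := g0) (F := F)
          (S' := c * R ^ a * F * S) (E := E3) he10 he11 hV0 hVe hX0 hVX hg0 p1 hSbig hE30 hEsmall
        linarith only [hneg2, main, hZ, hK3n, hK4n, key]
  have : Real.exp V * P ≤ f + KK / N := by linarith only [goal]
  exact this

end Pool.Agent.Helper98.LogPoly.SP
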